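import Mathlib
import Pool.Agent.W223.VD.Stms

/-!
# The height inequality with discriminant term on Kummer covers of the projective line:
definitions and statements of the parts

`Pool.Agent.W223.VD.cnt S P x` is the sum of `log N(v)` over the primes `v` of the number field
which contain no prime of `S` and at which the local height of `x` with respect to some `P_j` is
positive.
-/

set_option autoImplicit false

namespace Pool.Agent.W223.CV

open Polynomial IsDedekindDomain NumberField
open Pool.Agent.W223.VD (cnt)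
open Pool.Agent.H813R3.Voj (mahler)

/-- the value `u - x w` at `P = (u, w)` -/
def lin {L : Type} [Field L] (P : ℤ × ℤ) (x : L) : L := (P.1 : L) - x * (P.2 : L)

/-- REL: the logarithmic discriminant together with the truncated counting function does not
decrease in extensions. -/
def StmtREL : Prop :=
  ∀ (k L : Type) [Field k] [NumberField k] [Field L] [NumberField L] [Algebra k L]
    (q : ℕ) (S : Finset ℕ) (P : Fin q → ℤ × ℤ) (x : k), (∀ j, lin (P j) x ≠ 0) →
    (Module.finrank k L : ℝ) * (Real.log |(discr k : ℝ)| + cnt S P x) ≤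
      Real.log |(discr L : ℝ)| + cnt S P (algebraMap k L x)

/-- HT: if all positive local heights of `x` with respect to `P` outside `S` are at least
`e log N(v)`, then the truncated counting function is at most `1 / e` times the height. -/
def StmtHT : Prop :=
  ∀ (L : Type) [Field L] [NumberField L] (S : Finset ℕ) (P : ℤ × ℤ) (x : L) (e : ℕ),
    lin P x ≠ 0 → 1 ≤ e →
    (∀ v : HeightOneSpectrum (𝓞 L), (∀ p ∈ S, (p : 𝓞 L) ∉ v.asIdeal) →
      v.valuation L (lin P x) < max (v.valuation L x) 1 →
      v.valuation L (lin P x) ≤ max (v.valuation L x) 1 * WithZero.exp (-(e : ℤ))) →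
    (e : ℝ) * cnt S (fun _ : Fin 1 => P) x ≤
      Real.log (Height.mulHeight₁ x) +
        Module.finrank ℚ L * Real.log (|(P.1 : ℝ)| + |(P.2 : ℝ)|)

/-- MH: the height is at most the logarithmic Mahler measure divided by the degree. -/
def StmtMH : Prop :=
  ∀ (L : Type) [Field L] [NumberField L] (x : L) (f : ℤ[X]), Irreducible f →
    0 < f.natDegree → aeval x f = 0 →
    Real.log (Height.mulHeight₁ x) ≤
      Module.finrank ℚ L * (Real.log (mahler f) / f.natDegree)

/-- KUM: divisibility of the local heights at the points of a Kummer cover. -/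
def StmtKUM : Prop :=
  ∀ (L : Type) [Field L] [NumberField L] (q : ℕ) (S : Finset ℕ) (P : Fin q → ℤ × ℤ) (x y : L)
    (m : ℕ) (a : ℤ) (e : Fin q → ℕ), 1 ≤ m → m ∣ ∑ j, e j → a ≠ 0 →
    (∀ p : ℕ, p.Prime → (p : ℤ) ∣ a → p ∈ S) →
    (∀ i j, i ≠ j → (P i).1 * (P j).2 - (P j).1 * (P i).2 ≠ 0) →
    (∀ i j, i ≠ j → ∀ p : ℕ, p.Prime → (p : ℤ) ∣ (P i).1 * (P j).2 - (P j).1 * (P i).2 → p ∈ S) →
    (∀ j, lin (P j) x ≠ 0) → y ^ m = (a : L) * ∏ j, lin (P j) x ^ e j →
    ∀ (v : HeightOneSpectrum (𝓞 L)), (∀ p ∈ S, (p : 𝓞 L) ∉ v.asIdeal) →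
    ∀ j, v.valuation L (lin (P j) x) < max (v.valuation L x) 1 →
    ∃ n : ℕ, v.valuation L (lin (P j) x) = max (v.valuation L x) 1 * WithZero.exp (-(n : ℤ)) ∧
      (m / Nat.gcd m (e j)) ∣ n

end Pool.Agent.W223.CV
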