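import Mathlib
import Pool.Agent.W223.CV.Stms
import Pool.Agent.W598.VD.TR

/-!
# Auxiliary statements on truncated counting functions
-/

set_option autoImplicit false

namespace Pool.Agent.W223.CV

open Polynomial IsDedekindDomain NumberField
open Pool.Agent.W223.VD (cnt)

variable {L : Type} [Field L] [NumberField L]

open Classical in
/-- the terms of the truncated counting function -/
noncomputable def ct (S : Finset ℕ) (A : HeightOneSpectrum (𝓞 L) → Prop)
    (v : HeightOneSpectrum (𝓞 L)) : ℝ :=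
  if (∀ p ∈ S, (p : 𝓞 L) ∉ v.asIdeal) ∧ A v then Real.log (Ideal.absNorm v.asIdeal) else 0

/-- the sum of `log N(v)` over the primes `v` outside `S` with `A v` -/
noncomputable def cc (S : Finset ℕ) (A : HeightOneSpectrum (𝓞 L) → Prop) : ℝ :=
  ∑ᶠ v : HeightOneSpectrum (𝓞 L), ct S A v

lemma log_norm_nonneg (v : HeightOneSpectrum (𝓞 L)) : 0 ≤ Real.log (Ideal.absNorm v.asIdeal) := by
  refine Real.log_nonneg ?_
  have h : Ideal.absNorm v.asIdeal ≠ 0 := by
    rw [Ne, Ideal.absNorm_eq_zero_iff]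
    exact v.ne_bot
  exact_mod_cast Nat.one_le_iff_ne_zero.mpr h

lemma ct_pos {S : Finset ℕ} {A : HeightOneSpectrum (𝓞 L) → Prop} {v : HeightOneSpectrum (𝓞 L)}
    (h : (∀ p ∈ S, (p : 𝓞 L) ∉ v.asIdeal) ∧ A v) :
    ct S A v = Real.log (Ideal.absNorm v.asIdeal) := if_pos h

lemma ct_neg {S : Finset ℕ} {A : HeightOneSpectrum (𝓞 L) → Prop} {v : HeightOneSpectrum (𝓞 L)}
    (h : ¬ ((∀ p ∈ S, (p : 𝓞 L) ∉ v.asIdeal) ∧ A v)) : ct S A v = 0 := if_neg h

lemma ct_nonneg (S : Finset ℕ) (A : HeightOneSpectrum (𝓞 L) → Prop)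
    (v : HeightOneSpectrum (𝓞 L)) : 0 ≤ ct S A v := by
  unfold ct
  split_ifs
  · exact log_norm_nonneg v
  · exact le_rfl

lemma ct_support (S : Finset ℕ) {A : HeightOneSpectrum (𝓞 L) → Prop} (hA : {v | A v}.Finite) :
    Function.HasFiniteSupport (ct S A) := by
  refine hA.subset fun v hv => ?_
  rw [Function.mem_support] at hv
  by_contra h
  exact hv (ct_neg fun h1 => h h1.2)

lemma cc_mono {S S' : Finset ℕ} (hS : S ⊆ S') {A A' : HeightOneSpectrum (𝓞 L) → Prop}
    (hA : {v | A v}.Finite) (h : ∀ v, (∀ p ∈ S', (p : 𝓞 L) ∉ v.asIdeal) → A' v → A v) :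
    cc S' A' ≤ cc S A := by
  have hA' : Function.HasFiniteSupport (ct S' A') := by
    refine hA.subset fun v hv => ?_
    rw [Function.mem_support] at hv
    by_contra h1
    exact hv (ct_neg fun h2 => h1 (h v h2.1 h2.2))
  unfold cc
  refine finsum_le_finsum' hA' (ct_support S hA) ?_
  intro v
  by_cases h1 : (∀ p ∈ S', (p : 𝓞 L) ∉ v.asIdeal) ∧ A' v
  · rw [ct_pos h1, ct_pos ⟨fun p hp => h1.1 p (hS hp), h v h1.1 h1.2⟩]
  · rw [ct_neg h1]
    exact ct_nonneg S A v

lemma cc_or (S : Finset ℕ) {A A' : HeightOneSpectrum (𝓞 L) → Prop}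
    (hA : {v | A v}.Finite) (hA' : {v | A' v}.Finite) :
    cc S (fun v => A v ∨ A' v) ≤ cc S A + cc S A' := by
  unfold cc
  rw [← finsum_add_distrib (ct_support S hA) (ct_support S hA')]
  refine finsum_le_finsum' (ct_support S (hA.union hA')) ?_ ?_
  · exact Set.Finite.subset ((ct_support S hA).union (ct_support S hA'))
      (Function.support_add _ _)
  · intro v
    have h0 := ct_nonneg S A v
    have h0' := ct_nonneg S A' v
    by_cases h1 : ∀ p ∈ S, (p : 𝓞 L) ∉ v.asIdeal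
    · by_cases h2 : A v
      · show ct S (fun v => A v ∨ A' v) v ≤ ct S A v + ct S A' v
        rw [ct_pos ⟨h1, Or.inl h2⟩, ct_pos ⟨h1, h2⟩]
        linarith
      · by_cases h3 : A' v
        · show ct S (fun v => A v ∨ A' v) v ≤ ct S A v + ct S A' v
          rw [ct_pos (A := fun v => A v ∨ A' v) ⟨h1, Or.inr h3⟩, ct_pos (A := A') ⟨h1, h3⟩]
          linarith
        · show ct S (fun v => A v ∨ A' v) v ≤ ct S A v + ct S A' v
          rw [ct_neg (A := fun v => A v ∨ A' v) fun h => h.2.elim h2 h3]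
          linarith
    · show ct S (fun v => A v ∨ A' v) v ≤ ct S A v + ct S A' v
      rw [ct_neg (A := fun v => A v ∨ A' v) fun h => h1 h.1]
      linarith

lemma cc_exists {ι : Type} (S : Finset ℕ) (T : Finset ι)
    (A : ι → HeightOneSpectrum (𝓞 L) → Prop) (hA : ∀ j, {v | A j v}.Finite) :
    cc S (fun v => ∃ j ∈ T, A j v) ≤ ∑ j ∈ T, cc S (A j) := by
  classical
  induction T using Finset.induction_on with
  | empty =>
    have : ct S (fun v : HeightOneSpectrum (𝓞 L) => ∃ j ∈ (∅ : Finset ι), A j v) = fun _ => 0 := by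
      funext v
      exact ct_neg fun h => by simp at h
    unfold cc
    rw [this]
    simp
  | insert a T ha ih =>
    rw [Finset.sum_insert ha]
    have h1 : {v | ∃ j ∈ T, A j v}.Finite := by
      have : {v | ∃ j ∈ T, A j v} = ⋃ j ∈ T, {v | A j v} := by
        ext v; simp
      rw [this]
      exact T.finite_toSet.biUnion fun j _ => hA j
    have h2 := cc_or S (hA a) h1
    refine le_trans (cc_mono (le_refl S) ((hA a).union h1) ?_) (h2.trans (by linarith))
    rintro v - ⟨j, hj, hv⟩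
    rcases Finset.mem_insert.mp hj with h | h
    · left
      show A a v
      rw [← h]; exact hv
    · exact Or.inr ⟨j, h, hv⟩

/-- the local height of `x` with respect to `P` is positive at `v` -/
def Near (P : ℤ × ℤ) (x : L) (v : HeightOneSpectrum (𝓞 L)) : Prop :=
  v.valuation L (lin P x) < max (v.valuation L x) 1

lemma near_finite (P : ℤ × ℤ) (x : L) (h : lin P x ≠ 0) : {v | Near P x v}.Finite :=
  Pool.Agent.W598.VD.TR.finite_support x _ h

lemma cnt_eq {q : ℕ} (S : Finset ℕ) (P : Fin q → ℤ × ℤ) (x : L) :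
    cnt S P x = cc S (fun v => ∃ j ∈ Finset.univ, Near (P j) x v) := by
  unfold cnt cc
  refine finsum_congr fun v => ?_
  by_cases h : (∀ p ∈ S, (p : 𝓞 L) ∉ v.asIdeal) ∧ ∃ j, Near (P j) x v
  · rw [ct_pos ⟨h.1, h.2.choose, Finset.mem_univ _, h.2.choose_spec⟩, if_pos]
    exact h
  · rw [ct_neg, if_neg]
    · exact h
    · rintro ⟨h1, j, -, h2⟩
      exact h ⟨h1, j, h2⟩

lemma cnt_one (S : Finset ℕ) (P : ℤ × ℤ) (x : L) :
    cnt S (fun _ : Fin 1 => P) x = cc S (fun v => Near P x v) := by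
  rw [cnt_eq]
  congr 1
  funext v
  simp

/-- The truncated counting function for all points is at most the one for the points of `J` plus
`1 / e_j` times the height for the others. -/
lemma cnt_le (hHT : StmtHT) {q : ℕ} (S S' : Finset ℕ) (hS : S ⊆ S') (P : Fin q → ℤ × ℤ)
    (x : L) (e : Fin q → ℕ) (J : Finset (Fin q)) (hx : ∀ j, lin (P j) x ≠ 0)
    (he : ∀ j, 1 ≤ e j)
    (hdiv : ∀ v : HeightOneSpectrum (𝓞 L), (∀ p ∈ S', (p : 𝓞 L) ∉ v.asIdeal) → ∀ j,
      Near (P j) x v →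
      v.valuation L (lin (P j) x) ≤ max (v.valuation L x) 1 * WithZero.exp (-(e j : ℤ))) :
    cnt S' P x ≤ cc S (fun v => ∃ j ∈ J, Near (P j) x v) +
      ∑ j ∈ Jᶜ, (Real.log (Height.mulHeight₁ x) +
        Module.finrank ℚ L * Real.log (|((P j).1 : ℝ)| + |((P j).2 : ℝ)|)) / e j := by
  classical
  have hf : ∀ T : Finset (Fin q), {v | ∃ j ∈ T, Near (P j) x v}.Finite := by
    intro T
    have : {v | ∃ j ∈ T, Near (P j) x v} = ⋃ j ∈ T, {v | Near (P j) x v} := by
      ext v; simp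
    rw [this]
    exact T.finite_toSet.biUnion fun j _ => near_finite _ _ (hx j)
  rw [cnt_eq]
  have h1 : cc S' (fun v => ∃ j ∈ Finset.univ, Near (P j) x v) ≤
      cc S' (fun v => (∃ j ∈ J, Near (P j) x v) ∨ ∃ j ∈ Jᶜ, Near (P j) x v) := by
    refine cc_mono (le_refl _) ((hf J).union (hf Jᶜ)) ?_
    rintro v - ⟨j, -, hv⟩
    by_cases hj : j ∈ J
    · exact Or.inl ⟨j, hj, hv⟩
    · exact Or.inr ⟨j, by simpa using hj, hv⟩
  have h2 := cc_or S' (hf J) (hf Jᶜ)
  have h3 : cc S' (fun v => ∃ j ∈ J, Near (P j) x v) ≤ cc S (fun v => ∃ j ∈ J, Near (P j) x v) :=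
    cc_mono hS (hf J) fun v _ h => h
  have h4 := cc_exists S' Jᶜ (fun j v => Near (P j) x v) (fun j => near_finite _ _ (hx j))
  have h5 : ∑ j ∈ Jᶜ, cc S' (fun v => Near (P j) x v) ≤
      ∑ j ∈ Jᶜ, (Real.log (Height.mulHeight₁ x) +
        Module.finrank ℚ L * Real.log (|((P j).1 : ℝ)| + |((P j).2 : ℝ)|)) / e j := by
    refine Finset.sum_le_sum fun j _ => ?_
    have h6 := hHT L S' (P j) x (e j) (hx j) (he j) (fun v hv hn => hdiv v hv j hn)
    rw [cnt_one] at h6
    rw [le_div_iff₀ (by exact_mod_cast he j), mul_comm]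
    exact h6
  linarith

end Pool.Agent.W223.CV
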