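import Mathlib
import Pool.Agent.W223.CV.Asm

/-!
# From the inequality over `ℚ(x)` to the inequality on Kummer covers
-/

set_option autoImplicit false

namespace Pool.Agent.W223.CV

open Polynomial IsDedekindDomain NumberField
open Pool.Agent.W223.VD (cnt)
open Pool.Agent.H813R3.Voj (mahler)

/-- the ramification index above `P_j` -/
def ram {s q : ℕ} (m : Fin s → ℕ) (e : Fin s → Fin q → ℕ) (j : Fin q) : ℕ :=
  Finset.univ.lcm fun i => m i / Nat.gcd (m i) (e i j)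

lemma ram_pos {s q : ℕ} (m : Fin s → ℕ) (e : Fin s → Fin q → ℕ) (hm : ∀ i, 1 ≤ m i)
    (j : Fin q) : 1 ≤ ram m e j := by
  rw [Nat.one_le_iff_ne_zero]
  unfold ram
  intro h
  rw [Finset.lcm_eq_zero_iff] at h
  obtain ⟨i, -, hi⟩ := h
  have h1 : 0 < m i / Nat.gcd (m i) (e i j) :=
    Nat.div_pos (Nat.gcd_le_left _ (hm i)) (Nat.gcd_pos_of_pos_left _ (hm i))
  have h2 : m i / Nat.gcd (m i) (e i j) = 0 := hi
  omega

/-- the local heights are at least the ramification index -/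
lemma local_ge (hK : StmtKUM) {L : Type} [Field L] [NumberField L] {q s : ℕ} (S : Finset ℕ)
    (P : Fin q → ℤ × ℤ) (x : L) (y : Fin s → L) (m : Fin s → ℕ) (a : Fin s → ℤ)
    (e : Fin s → Fin q → ℕ) (hm : ∀ i, 1 ≤ m i) (hme : ∀ i, m i ∣ ∑ j, e i j)
    (ha : ∀ i, a i ≠ 0) (haS : ∀ i, ∀ p : ℕ, p.Prime → (p : ℤ) ∣ a i → p ∈ S)
    (hP : ∀ i j, i ≠ j → (P i).1 * (P j).2 - (P j).1 * (P i).2 ≠ 0)
    (hPS : ∀ i j, i ≠ j → ∀ p : ℕ, p.Prime →
      (p : ℤ) ∣ (P i).1 * (P j).2 - (P j).1 * (P i).2 → p ∈ S)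
    (hx : ∀ j, lin (P j) x ≠ 0)
    (hy : ∀ i, y i ^ m i = (a i : L) * ∏ j, lin (P j) x ^ e i j)
    (v : HeightOneSpectrum (𝓞 L)) (hv : ∀ p ∈ S, (p : 𝓞 L) ∉ v.asIdeal) (j : Fin q)
    (hn : Near (P j) x v) :
    v.valuation L (lin (P j) x) ≤
      max (v.valuation L x) 1 * WithZero.exp (-(ram m e j : ℤ)) := by
  have hmax : max (v.valuation L x) 1 ≠ 0 :=
    (lt_of_lt_of_le zero_lt_one (le_max_right _ _)).ne'
  obtain ⟨n, hn1, -⟩ := hK L q S P x 1 1 1 (fun _ => 0) le_rfl (one_dvd _) one_ne_zero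
    (fun p hp h => absurd (Nat.Prime.one_lt hp) (by
      have := Int.eq_one_of_dvd_one (by positivity) h
      have h2 : p = 1 := by exact_mod_cast this
      omega)) hP hPS hx (by simp) v hv j hn
  have hdvd : ram m e j ∣ n := by
    unfold ram
    refine Finset.lcm_dvd fun i _ => ?_
    obtain ⟨n', hn', hd⟩ := hK L q S P x (y i) (m i) (a i) (e i) (hm i) (hme i) (ha i) (haS i)
      hP hPS hx (hy i) v hv j hn
    rw [hn1] at hn'
    have h1 := mul_left_cancel₀ hmax hn'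
    have h2 : (-(n : ℤ)) = -(n' : ℤ) := WithZero.exp_injective h1
    have h3 : n = n' := by omega
    rw [h3]
    exact hd
  have hn0 : n ≠ 0 := by
    rintro rfl
    have h1 : v.valuation L (lin (P j) x) < max (v.valuation L x) 1 := hn
    rw [hn1] at h1
    simp at h1
  have hle : ram m e j ≤ n := Nat.le_of_dvd (Nat.pos_of_ne_zero hn0) hdvd
  rw [hn1]
  refine mul_le_mul_right ?_ _
  rw [WithZero.exp_le_exp]
  omega

lemma core (hR : StmtREL) (hHT : StmtHT) (hMH : StmtMH) (hK : StmtKUM)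
    (k L : Type) [Field k] [NumberField k] [Field L] [NumberField L] [Algebra k L]
    {q s : ℕ} (S S' : Finset ℕ) (hSS : S ⊆ S') (P : Fin q → ℤ × ℤ) (x : k) (y : Fin s → L)
    (f : ℤ[X]) (hf : Irreducible f) (hd : 0 < f.natDegree) (hfx : aeval x f = 0)
    (m : Fin s → ℕ) (a : Fin s → ℤ)
    (e : Fin s → Fin q → ℕ) (hm : ∀ i, 1 ≤ m i) (hme : ∀ i, m i ∣ ∑ j, e i j)
    (ha : ∀ i, a i ≠ 0) (haS : ∀ i, ∀ p : ℕ, p.Prime → (p : ℤ) ∣ a i → p ∈ S)
    (hP : ∀ i j, i ≠ j → (P i).1 * (P j).2 - (P j).1 * (P i).2 ≠ 0)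
    (hPS : ∀ i j, i ≠ j → ∀ p : ℕ, p.Prime →
      (p : ℤ) ∣ (P i).1 * (P j).2 - (P j).1 * (P i).2 → p ∈ S')
    (hPZ : ∀ j, P j ≠ 0)
    (hx : ∀ j, lin (P j) x ≠ 0)
    (hy : ∀ i, y i ^ m i = (a i : L) * ∏ j, lin (P j) (algebraMap k L x) ^ e i j)
    (J : Finset (Fin q)) (κ C₀ : ℝ)
    (hC : (q - κ) * (Real.log (mahler f) / f.natDegree) ≤
      cnt S' P x / Module.finrank ℚ k + Real.log |(discr k : ℝ)| / Module.finrank ℚ k + C₀) :
    (∑ j ∈ J, (1 : ℝ) + ∑ j ∈ Jᶜ, (1 - 1 / (ram m e j : ℝ)) - κ) *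
        (Real.log (mahler f) / f.natDegree) ≤
      cc S (fun v => ∃ j ∈ J, Near (P j) (algebraMap k L x) v) / Module.finrank ℚ L +
        Real.log |(discr L : ℝ)| / Module.finrank ℚ L + C₀ +
        ∑ j, Real.log (|((P j).1 : ℝ)| + |((P j).2 : ℝ)|) := by
  classical
  set h : ℝ := Real.log (mahler f) / f.natDegree with hh
  set ξ : L := algebraMap k L x with hξ
  have hlin : ∀ j, lin (P j) ξ = algebraMap k L (lin (P j) x) := by
    intro j
    unfold lin
    rw [hξ]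
    simp
  have hxL : ∀ j, lin (P j) ξ ≠ 0 := by
    intro j
    rw [hlin, _root_.map_ne_zero]
    exact hx j
  have hfL : aeval ξ f = 0 := by
    rw [hξ, aeval_algebraMap_apply, hfx, map_zero]
  have hram := ram_pos m e hm
  have h1 := hR k L q S' P x hx
  have h2 := cnt_le hHT S S' hSS P ξ (ram m e) J hxL hram
    (fun v hv j hn => local_ge hK S' P ξ y m a e hm hme ha
      (fun i p hp hpa => hSS (haS i p hp hpa)) hP hPS hxL hy v hv j hn)
  have h3 := hMH L ξ f hf hd hfL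
  have hkpos : (0 : ℝ) < Module.finrank ℚ k := by exact_mod_cast Module.finrank_pos
  have hLpos : (0 : ℝ) < Module.finrank ℚ L := by exact_mod_cast Module.finrank_pos
  have htow : (Module.finrank ℚ L : ℝ) = Module.finrank ℚ k * Module.finrank k L := by
    exact_mod_cast (Module.finrank_mul_finrank ℚ k L).symm
  have hnpos : (0 : ℝ) < Module.finrank k L := by
    rw [htow] at hLpos
    exact pos_of_mul_pos_right hLpos hkpos.le
  have hlogP : ∀ j, 0 ≤ Real.log (|((P j).1 : ℝ)| + |((P j).2 : ℝ)|) := by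
    intro j
    refine Real.log_nonneg ?_
    have h5 : (P j).1 ≠ 0 ∨ (P j).2 ≠ 0 := by
      by_contra hcon
      push Not at hcon
      exact hPZ j (Prod.ext hcon.1 hcon.2)
    rcases h5 with h5 | h5
    · have : (1 : ℝ) ≤ |((P j).1 : ℝ)| := by exact_mod_cast Int.one_le_abs h5
      have h6 := abs_nonneg ((P j).2 : ℝ)
      linarith
    · have : (1 : ℝ) ≤ |((P j).2 : ℝ)| := by exact_mod_cast Int.one_le_abs h5
      have h6 := abs_nonneg ((P j).1 : ℝ)
      linarith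
  -- the two sides over `L`
  have h4 : cnt S' P x / Module.finrank ℚ k + Real.log |(discr k : ℝ)| / Module.finrank ℚ k ≤
      cnt S' P ξ / Module.finrank ℚ L + Real.log |(discr L : ℝ)| / Module.finrank ℚ L := by
    rw [← add_div, ← add_div, div_le_div_iff₀ hkpos hLpos, htow]
    have : (cnt S' P x + Real.log |(discr k : ℝ)|) *
        (Module.finrank ℚ k * Module.finrank k L) =
        (Module.finrank k L * (Real.log |(discr k : ℝ)| + cnt S' P x)) * Module.finrank ℚ k := by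
      ring
    rw [this]
    refine mul_le_mul_of_nonneg_right ?_ hkpos.le
    linarith
  have h5 : cnt S' P ξ / Module.finrank ℚ L ≤
      cc S (fun v => ∃ j ∈ J, Near (P j) ξ v) / Module.finrank ℚ L +
        ∑ j ∈ Jᶜ, (h + Real.log (|((P j).1 : ℝ)| + |((P j).2 : ℝ)|)) / ram m e j := by
    rw [div_le_iff₀ hLpos, add_mul, div_mul_cancel₀ _ hLpos.ne', Finset.sum_mul]
    refine h2.trans (add_le_add_right (Finset.sum_le_sum fun j _ => ?_) _)
    rw [div_mul_eq_mul_div]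
    refine div_le_div_of_nonneg_right ?_ (Nat.cast_nonneg _)
    rw [add_mul]
    have : h * Module.finrank ℚ L = Module.finrank ℚ L * h := mul_comm _ _
    rw [this, mul_comm (Real.log _)]
    linarith
  have h6 : ∑ j ∈ Jᶜ, (h + Real.log (|((P j).1 : ℝ)| + |((P j).2 : ℝ)|)) / ram m e j ≤
      (∑ j ∈ Jᶜ, 1 / (ram m e j : ℝ)) * h +
        ∑ j, Real.log (|((P j).1 : ℝ)| + |((P j).2 : ℝ)|) := by
    rw [Finset.sum_mul]
    have h7 : ∑ j ∈ Jᶜ, Real.log (|((P j).1 : ℝ)| + |((P j).2 : ℝ)|) ≤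
        ∑ j, Real.log (|((P j).1 : ℝ)| + |((P j).2 : ℝ)|) :=
      Finset.sum_le_sum_of_subset_of_nonneg (Finset.subset_univ _) fun j _ _ => hlogP j
    refine le_trans ?_ (add_le_add_right h7 _)
    rw [← Finset.sum_add_distrib]
    refine Finset.sum_le_sum fun j _ => ?_
    rw [add_div]
    have h8 : Real.log (|((P j).1 : ℝ)| + |((P j).2 : ℝ)|) / ram m e j ≤
        Real.log (|((P j).1 : ℝ)| + |((P j).2 : ℝ)|) :=
      div_le_self (hlogP j) (by exact_mod_cast hram j)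
    have h9 : h / (ram m e j : ℝ) = 1 / (ram m e j : ℝ) * h := by ring
    rw [h9]
    linarith
  have h10 : ∑ j ∈ J, (1 : ℝ) + ∑ j ∈ Jᶜ, (1 - 1 / (ram m e j : ℝ)) =
      q - ∑ j ∈ Jᶜ, 1 / (ram m e j : ℝ) := by
    rw [Finset.sum_sub_distrib, ← add_sub_assoc, Finset.sum_add_sum_compl]
    simp
  rw [h10]
  have h11 : (q - ∑ j ∈ Jᶜ, 1 / (ram m e j : ℝ) - κ) * h =
      (q - κ) * h - (∑ j ∈ Jᶜ, 1 / (ram m e j : ℝ)) * h := by ring
  rw [h11]
  linarith

end Pool.Agent.W223.CV
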