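import Mathlib
import Pool.Agent.W223.CV.Asm

/-!
# From the inequality over `ℚ(x)` to the inequality for integral points of root stacks
-/

set_option autoImplicit false

namespace Pool.Agent.W223.CV

open Polynomial IsDedekindDomain NumberField
open Pool.Agent.W223.VD (cnt)
open Pool.Agent.H813R3.Voj (mahler)

/-- the same with divisibility of the local heights as a hypothesis -/
lemma core' (hR : StmtREL) (hHT : StmtHT) (hMH : StmtMH)
    (k L : Type) [Field k] [NumberField k] [Field L] [NumberField L] [Algebra k L]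
    {q : ℕ} (S : Finset ℕ) (P : Fin q → ℤ × ℤ) (x : k)
    (f : ℤ[X]) (hf : Irreducible f) (hd : 0 < f.natDegree) (hfx : aeval x f = 0)
    (n : Fin q → ℕ) (hram : ∀ j, 1 ≤ n j)
    (hPZ : ∀ j, P j ≠ 0)
    (hx : ∀ j, lin (P j) x ≠ 0)
    (hdiv : ∀ v : HeightOneSpectrum (𝓞 L), (∀ p ∈ S, (p : 𝓞 L) ∉ v.asIdeal) → ∀ j,
      Near (P j) (algebraMap k L x) v →
      v.valuation L (lin (P j) (algebraMap k L x)) ≤
        max (v.valuation L (algebraMap k L x)) 1 * WithZero.exp (-(n j : ℤ)))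
    (J : Finset (Fin q)) (κ C₀ : ℝ)
    (hC : (q - κ) * (Real.log (mahler f) / f.natDegree) ≤
      cnt S P x / Module.finrank ℚ k + Real.log |(discr k : ℝ)| / Module.finrank ℚ k + C₀) :
    (∑ j ∈ J, (1 : ℝ) + ∑ j ∈ Jᶜ, (1 - 1 / (n j : ℝ)) - κ) *
        (Real.log (mahler f) / f.natDegree) ≤
      cc S (fun v => ∃ j ∈ J, Near (P j) (algebraMap k L x) v) / Module.finrank ℚ L +
        Real.log |(discr L : ℝ)| / Module.finrank ℚ L + C₀ +
        ∑ j, Real.log (|((P j).1 : ℝ)| + |((P j).2 : ℝ)|) := by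
  classical
  set h : ℝ := Real.log (mahler f) / f.natDegree with hh
  set ξ : L := algebraMap k L x with hξ
  have hlin : ∀ j, lin (P j) ξ = algebraMap k L (lin (P j) x) := by
    intro j
    unfold lin
    rw [hξ]
    simp
  have hxL : ∀ j, lin (P j) ξ ≠ 0 := by
    intro j
    rw [hlin, _root_.map_ne_zero]
    exact hx j
  have hfL : aeval ξ f = 0 := by
    rw [hξ, aeval_algebraMap_apply, hfx, map_zero]
  have h1 := hR k L q S P x hx
  have h2 := cnt_le hHT S S (le_refl S) P ξ n J hxL hram hdiv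
  have h3 := hMH L ξ f hf hd hfL
  have hkpos : (0 : ℝ) < Module.finrank ℚ k := by exact_mod_cast Module.finrank_pos
  have hLpos : (0 : ℝ) < Module.finrank ℚ L := by exact_mod_cast Module.finrank_pos
  have htow : (Module.finrank ℚ L : ℝ) = Module.finrank ℚ k * Module.finrank k L := by
    exact_mod_cast (Module.finrank_mul_finrank ℚ k L).symm
  have hnpos : (0 : ℝ) < Module.finrank k L := by
    rw [htow] at hLpos
    exact pos_of_mul_pos_right hLpos hkpos.le
  have hlogP : ∀ j, 0 ≤ Real.log (|((P j).1 : ℝ)| + |((P j).2 : ℝ)|) := by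
    intro j
    refine Real.log_nonneg ?_
    have h5 : (P j).1 ≠ 0 ∨ (P j).2 ≠ 0 := by
      by_contra hcon
      push Not at hcon
      exact hPZ j (Prod.ext hcon.1 hcon.2)
    rcases h5 with h5 | h5
    · have : (1 : ℝ) ≤ |((P j).1 : ℝ)| := by exact_mod_cast Int.one_le_abs h5
      have h6 := abs_nonneg ((P j).2 : ℝ)
      linarith
    · have : (1 : ℝ) ≤ |((P j).2 : ℝ)| := by exact_mod_cast Int.one_le_abs h5
      have h6 := abs_nonneg ((P j).1 : ℝ)
      linarith
  -- the two sides over `L`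
  have h4 : cnt S P x / Module.finrank ℚ k + Real.log |(discr k : ℝ)| / Module.finrank ℚ k ≤
      cnt S P ξ / Module.finrank ℚ L + Real.log |(discr L : ℝ)| / Module.finrank ℚ L := by
    rw [← add_div, ← add_div, div_le_div_iff₀ hkpos hLpos, htow]
    have : (cnt S P x + Real.log |(discr k : ℝ)|) *
        (Module.finrank ℚ k * Module.finrank k L) =
        (Module.finrank k L * (Real.log |(discr k : ℝ)| + cnt S P x)) * Module.finrank ℚ k := by
      ring
    rw [this]
    refine mul_le_mul_of_nonneg_right ?_ hkpos.le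
    linarith
  have h5 : cnt S P ξ / Module.finrank ℚ L ≤
      cc S (fun v => ∃ j ∈ J, Near (P j) ξ v) / Module.finrank ℚ L +
        ∑ j ∈ Jᶜ, (h + Real.log (|((P j).1 : ℝ)| + |((P j).2 : ℝ)|)) / n j := by
    rw [div_le_iff₀ hLpos, add_mul, div_mul_cancel₀ _ hLpos.ne', Finset.sum_mul]
    refine h2.trans (add_le_add_right (Finset.sum_le_sum fun j _ => ?_) _)
    rw [div_mul_eq_mul_div]
    refine div_le_div_of_nonneg_right ?_ (Nat.cast_nonneg _)
    rw [add_mul]
    have : h * Module.finrank ℚ L = Module.finrank ℚ L * h := mul_comm _ _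
    rw [this, mul_comm (Real.log _)]
    linarith
  have h6 : ∑ j ∈ Jᶜ, (h + Real.log (|((P j).1 : ℝ)| + |((P j).2 : ℝ)|)) / n j ≤
      (∑ j ∈ Jᶜ, 1 / (n j : ℝ)) * h +
        ∑ j, Real.log (|((P j).1 : ℝ)| + |((P j).2 : ℝ)|) := by
    rw [Finset.sum_mul]
    have h7 : ∑ j ∈ Jᶜ, Real.log (|((P j).1 : ℝ)| + |((P j).2 : ℝ)|) ≤
        ∑ j, Real.log (|((P j).1 : ℝ)| + |((P j).2 : ℝ)|) :=
      Finset.sum_le_sum_of_subset_of_nonneg (Finset.subset_univ _) fun j _ _ => hlogP j
    refine le_trans ?_ (add_le_add_right h7 _)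
    rw [← Finset.sum_add_distrib]
    refine Finset.sum_le_sum fun j _ => ?_
    rw [add_div]
    have h8 : Real.log (|((P j).1 : ℝ)| + |((P j).2 : ℝ)|) / n j ≤
        Real.log (|((P j).1 : ℝ)| + |((P j).2 : ℝ)|) :=
      div_le_self (hlogP j) (by exact_mod_cast hram j)
    have h9 : h / (n j : ℝ) = 1 / (n j : ℝ) * h := by ring
    rw [h9]
    linarith
  have h10 : ∑ j ∈ J, (1 : ℝ) + ∑ j ∈ Jᶜ, (1 - 1 / (n j : ℝ)) =
      q - ∑ j ∈ Jᶜ, 1 / (n j : ℝ) := by
    rw [Finset.sum_sub_distrib, ← add_sub_assoc, Finset.sum_add_sum_compl]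
    simp
  rw [h10]
  have h11 : (q - ∑ j ∈ Jᶜ, 1 / (n j : ℝ) - κ) * h =
      (q - κ) * h - (∑ j ∈ Jᶜ, 1 / (n j : ℝ)) * h := by ring
  rw [h11]
  linarith

end Pool.Agent.W223.CV
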